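import Pool.Agent.BadG.Final

set_option autoImplicit false

/-! # MP_20b549_lc: an irreducible group of automorphisms of a bad group has no solvable normal subgroup

The definitions are in `Pool.Agent.BadG.LDefs`. -/

namespace Pool.Agent.Results.MP_20b549_lc.NoSolvable

open Function Pool.Agent.BadG

universe u v

/-- **No solvable normal subgroups.** Let `S ⋊ M` be a group with a rank function (Borovik-Poizat axioms A, B, C; for example a
group of finite Morley rank), in which `S` and `M` are definable, `S` a bad group, `M` connected. If the action is faithful and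
irreducible then `M` has no solvable normal subgroup `≠ 1`. -/
theorem result (L : FirstOrder.Language.{u, v}) (S M : Type) [Group S] [Group M] (φ : M →* MulAut S)
    [L.Structure (S ⋊[φ] M)] (ℛ : RankFn L (S ⋊[φ] M))
    (hmul : DFn L {v : Fin 3 → S ⋊[φ] M | v 0 * v 1 = v 2})
    (hS : DIn L (SemidirectProduct.inl : S → S ⋊[φ] M) Set.univ)
    (hM : DIn L (SemidirectProduct.inr : M → S ⋊[φ] M) Set.univ)
    (hbad : BadIn L S (SemidirectProduct.inl : S → S ⋊[φ] M))
    (hMc : ConnIn L (SemidirectProduct.inr : M → S ⋊[φ] M) (⊤ : Subgroup M))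
    (hinj : Injective φ)
    (hirr : ∀ H : Subgroup S, ConnIn L (SemidirectProduct.inl : S → S ⋊[φ] M) H →
      (∀ m x, φ m x ∈ H ↔ x ∈ H) → H = ⊥ ∨ H = ⊤)
    (N : Subgroup M) (hN : N.Normal) (hs : Group.IsSolvable N) : N = ⊥ :=
  ((main L S M φ ℛ hmul hS hM hbad hMc).2.2 hinj hirr).1 N hN hs

end Pool.Agent.Results.MP_20b549_lc.NoSolvable
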