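import Pool.Agent.BadG.Final

set_option autoImplicit false

/-! # MP_20b549_lc: irreducible actions on bad groups of small rank

The definitions are in `Pool.Agent.BadG.LDefs`. -/

namespace Pool.Agent.Results.MP_20b549_lc.SmallRank

open Function Pool.Agent.BadG

universe u v

/-- **Q1 for bad groups of small rank.** Let `S ⋊ M` be a group with a rank function (Borovik-Poizat axioms A, B, C; for
example a group of finite Morley rank), in which `S` and `M` are definable, `S` a bad group, `M` connected; `b` is the rank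
of the Borel subgroups of `S`.
(1) `b ≥ 1` and the outer rank `k = rk M - rk {m | φ m inner}` satisfies `k ≤ rk S - 2 b - 1`, and `k ≤ rk S - 4` if `b = 1`.
(2) If the action is faithful and irreducible and `rk S ≤ 5`, or `rk S ≤ 2 b + 3`, or `b = 1` and `rk S ≤ 6`,
then the image of `M` contains `Inn(S)`.
(3) If the action is faithful and irreducible and `rk S = 4` or `rk S ≤ 2 b + 1`, then the image of `M` in
`Aut(S)` is `Inn(S)`. -/
theorem result (L : FirstOrder.Language.{u, v}) (S M : Type) [Group S] [Group M] (φ : M →* MulAut S)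
    [L.Structure (S ⋊[φ] M)] (ℛ : RankFn L (S ⋊[φ] M))
    (hmul : DFn L {v : Fin 3 → S ⋊[φ] M | v 0 * v 1 = v 2})
    (hS : DIn L (SemidirectProduct.inl : S → S ⋊[φ] M) Set.univ)
    (hM : DIn L (SemidirectProduct.inr : M → S ⋊[φ] M) Set.univ)
    (hbad : BadIn L S (SemidirectProduct.inl : S → S ⋊[φ] M))
    (hMc : ConnIn L (SemidirectProduct.inr : M → S ⋊[φ] M) (⊤ : Subgroup M)) :
    (∀ B : Subgroup S, BorelIn L (SemidirectProduct.inl : S → S ⋊[φ] M) B →
      1 ≤ ℛ.rkIn (SemidirectProduct.inl : S → S ⋊[φ] M) (B : Set S) ∧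
      OuterRankLe ℛ (ℛ.rkIn (SemidirectProduct.inl : S → S ⋊[φ] M) Set.univ -
        2 * ℛ.rkIn (SemidirectProduct.inl : S → S ⋊[φ] M) (B : Set S) - 1) ∧
      (ℛ.rkIn (SemidirectProduct.inl : S → S ⋊[φ] M) (B : Set S) = 1 →
        OuterRankLe ℛ (ℛ.rkIn (SemidirectProduct.inl : S → S ⋊[φ] M) Set.univ - 4))) ∧
    (Injective φ →
      (∀ H : Subgroup S, ConnIn L (SemidirectProduct.inl : S → S ⋊[φ] M) H →
        (∀ m x, φ m x ∈ H ↔ x ∈ H) → H = ⊥ ∨ H = ⊤) →
      ((ℛ.rkIn (SemidirectProduct.inl : S → S ⋊[φ] M) Set.univ ≤ 5 ∨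
        ∃ B : Subgroup S, BorelIn L (SemidirectProduct.inl : S → S ⋊[φ] M) B ∧
          (ℛ.rkIn (SemidirectProduct.inl : S → S ⋊[φ] M) Set.univ ≤
            2 * ℛ.rkIn (SemidirectProduct.inl : S → S ⋊[φ] M) (B : Set S) + 3 ∨
          (ℛ.rkIn (SemidirectProduct.inl : S → S ⋊[φ] M) (B : Set S) = 1 ∧
            ℛ.rkIn (SemidirectProduct.inl : S → S ⋊[φ] M) Set.univ ≤ 6))) →
        (MulAut.conj : S →* MulAut S).range ≤ φ.range) ∧
      ((ℛ.rkIn (SemidirectProduct.inl : S → S ⋊[φ] M) Set.univ = 4 ∨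
        ∃ B : Subgroup S, BorelIn L (SemidirectProduct.inl : S → S ⋊[φ] M) B ∧
          ℛ.rkIn (SemidirectProduct.inl : S → S ⋊[φ] M) Set.univ ≤
            2 * ℛ.rkIn (SemidirectProduct.inl : S → S ⋊[φ] M) (B : Set S) + 1) →
        φ.range = (MulAut.conj : S →* MulAut S).range)) := by
  obtain ⟨-, h2, h3⟩ := main L S M φ ℛ hmul hS hM hbad hMc
  exact ⟨h2, fun hi hr => (h3 hi hr).2⟩

end Pool.Agent.Results.MP_20b549_lc.SmallRank
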