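import Pool.Agent.BadG.Uniq

set_option autoImplicit false

/-! # MP_20b549_lc: a definable automorphism of a bad group normalizes exactly one Borel subgroup

The definitions are in `Pool.Agent.BadG.LDefs`. -/

namespace Pool.Agent.Results.MP_20b549_lc.UniqueBorel

open Function Pool.Agent.BadG

universe u v

/-- **Definable automorphisms of bad groups.** Let `X` be a structure with a rank function (Borovik-Poizat axioms A, B, C; for
example a structure `S ⋊ M` of finite Morley rank) and `S` a bad group definable in `X`, by `i : S → X`. Every automorphism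
`α ≠ 1` of `S` with a definable graph normalizes exactly one Borel subgroup of `S`. -/
theorem result (L : FirstOrder.Language.{u, v}) (X : Type) [L.Structure X] (ℛ : RankFn L X)
    (S : Type) [Group S] (i : S → X) (hi : Injective i) (hS : DIn L i Set.univ)
    (hmul : DFn L {v : Fin 3 → X | ∃ s t : S, v 0 = i s ∧ v 1 = i t ∧ v 2 = i (s * t)})
    (hbad : BadIn L S i) (α : MulAut S) (hα : α ≠ 1)
    (hd : DFn L {v : Fin 2 → X | ∃ s : S, v 0 = i s ∧ v 1 = i (α s)}) :
    ∃! B : Subgroup S, BorelIn L i B ∧ ∀ x, α x ∈ B ↔ x ∈ B :=
  unique_borel L X ℛ S i hi hS hmul hbad α hα hd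

end Pool.Agent.Results.MP_20b549_lc.UniqueBorel
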